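import Mathlib

/-!
Combinatorial core: families of words (left end, right end, set of positions passed above)
with pairwise few sign changes.
-/

namespace HM

open Finset

/-- An edge: left end, right end, set of positions passed above. -/
abbrev Ed := ℕ × ℕ × Finset ℕ

def vl (e : Ed) (u : ℕ) : ℤ :=
  if u = e.1 ∨ u = e.2.1 then 0 else if u ∈ e.2.2 then 1 else -1

def R (e : Ed) (u : ℕ) : Prop := e.1 ≤ u ∧ u ≤ e.2.1

def P : ℕ → Ed → Ed → ℕ → Prop
  | 0, e, f, t => ∃ u < t, R e u ∧ R f u ∧ vl e u < vl f u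
  | K + 1, e, f, t => ∃ u < t, R e u ∧ R f u ∧ vl e u < vl f u ∧ P K f e u

def Good (K t : ℕ) (F : Finset Ed) : Prop := ∀ e ∈ F, ∀ f ∈ F, e ≠ f → ¬ P K e f t

def Vd (n : ℕ) (F : Finset Ed) : Prop :=
  ∀ e ∈ F, e.1 < e.2.1 ∧ e.2.1 ≤ n ∧ e.2.2 ⊆ Ioo e.1 e.2.1

def Ag (e e' : Ed) (t : ℕ) : Prop := ∀ u < t, (R e u ↔ R e' u) ∧ vl e u = vl e' u

lemma Ag.refl (e : Ed) (t : ℕ) : Ag e e t := fun _ _ => ⟨Iff.rfl, rfl⟩

lemma P_mono {K : ℕ} {e f : Ed} {t t' : ℕ} (h : t ≤ t') (hp : P K e f t) : P K e f t' := by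
  cases K with
  | zero => obtain ⟨u, hu, h1⟩ := hp; exact ⟨u, by omega, h1⟩
  | succ K => obtain ⟨u, hu, h1⟩ := hp; exact ⟨u, by omega, h1⟩

lemma P_congr : ∀ {K : ℕ} {e f e' f' : Ed} {t : ℕ}, Ag e e' t → Ag f f' t →
    P K e f t → P K e' f' t := by
  intro K
  induction K with
  | zero =>
    intro e f e' f' t he hf hp
    obtain ⟨u, hu, h1, h2, h3⟩ := hp
    refine ⟨u, hu, (he u hu).1.mp h1, (hf u hu).1.mp h2, ?_⟩
    rw [← (he u hu).2, ← (hf u hu).2]; exact h3
  | succ K ih =>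
    intro e f e' f' t he hf hp
    obtain ⟨u, hu, h1, h2, h3, h4⟩ := hp
    refine ⟨u, hu, (he u hu).1.mp h1, (hf u hu).1.mp h2, ?_, ?_⟩
    · rw [← (he u hu).2, ← (hf u hu).2]; exact h3
    · exact ih (fun v hv => hf v (by omega)) (fun v hv => he v (by omega)) h4

/-- contraction of the last two vertices -/
def cc (m : ℕ) (e : Ed) : Ed := (e.1, min e.2.1 m, e.2.2.erase m)

lemma Ag_cc (m : ℕ) (e : Ed) (h : e.2.1 ≤ m + 1) : Ag (cc m e) e m := by
  intro u hu
  constructor
  · simp only [R, cc]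
    constructor
    · rintro ⟨h1, h2⟩; exact ⟨h1, le_trans h2 (min_le_left _ _)⟩
    · rintro ⟨h1, h2⟩; exact ⟨h1, le_min h2 hu.le⟩
  · simp only [vl, cc]
    have h1 : (u = min e.2.1 m) ↔ u = e.2.1 := by
      constructor
      · intro h1
        rcases le_total e.2.1 m with h2 | h2
        · rw [min_eq_left h2] at h1; exact h1
        · rw [min_eq_right h2] at h1; omega
      · intro h1
        rw [min_eq_left (by omega)]; exact h1
    have h2 : (u ∈ e.2.2.erase m) ↔ u ∈ e.2.2 := by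
      rw [mem_erase]
      exact ⟨fun h => h.2, fun h => ⟨by omega, h⟩⟩
    simp only [h1, h2]

lemma good_pair {K m : ℕ} {F X : Finset Ed} (hF : Good (K + 1) (m + 1) F) (c : ℤ)
    (hX : ∀ w ∈ X, ∃ e1 ∈ F, ∃ e2 ∈ F, Ag w e1 m ∧ Ag w e2 m ∧ R e1 m ∧ R e2 m ∧
      vl e1 m ≤ c ∧ c < vl e2 m) : Good K m X := by
  intro w hw w' hw' _ hp
  obtain ⟨_, _, e, he, _, h1, _, h2, _, h3⟩ := hX w hw
  obtain ⟨f, hf, _, _, h4, _, h5, _, h6, _⟩ := hX w' hw'
  have hlt : vl f m < vl e m := lt_of_le_of_lt h6 h3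
  have hne : f ≠ e := by
    intro h; rw [h] at hlt; exact lt_irrefl _ hlt
  exact hF f hf e he hne ⟨m, by omega, h5, h2, hlt, P_congr h1 h4 hp⟩

lemma step {K m : ℕ} {F : Finset Ed} (hV : Vd (m + 1) F) (hF : Good (K + 1) (m + 1) F) :
    ∃ T X Y : Finset Ed, F.card ≤ 1 + T.card + X.card + Y.card ∧
      Vd m T ∧ Good (K + 1) m T ∧
      Vd m X ∧ (∀ e ∈ X, e.2.1 = m) ∧ Good K m X ∧
      Vd m Y ∧ (∀ e ∈ Y, e.2.1 = m) ∧ Good K m Y ∧
      ((∀ e ∈ F, e.2.1 = m + 1) → Y = ∅ ∧ ∀ e ∈ T, e.2.1 = m) := by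
  classical
  set A := F.filter (fun e => e.2.1 ≤ m) with hA
  set Zp := F.filter (fun e => e.2.1 = m + 1 ∧ m ∈ e.2.2) with hZp
  set Zm := F.filter (fun e => e.2.1 = m + 1 ∧ m ∉ e.2.2 ∧ e.1 ≠ m) with hZm
  set B := Zp.image (cc m) with hB
  set D := Zm.image (cc m) with hD
  have hcB : B.card = Zp.card := by
    apply card_image_of_injOn
    intro e he f hf hef
    simp only [hZp, coe_filter, Set.mem_setOf_eq] at he hf
    simp only [cc, Prod.mk.injEq] at hef
    obtain ⟨h1, -, h3⟩ := hef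
    have h4 : e.2.2 = f.2.2 := by
      rw [← insert_erase he.2.2, ← insert_erase hf.2.2, h3]
    exact Prod.ext h1 (Prod.ext (by rw [he.2.1, hf.2.1]) h4)
  have hcD : D.card = Zm.card := by
    apply card_image_of_injOn
    intro e he f hf hef
    simp only [hZm, coe_filter, Set.mem_setOf_eq] at he hf
    simp only [cc, Prod.mk.injEq] at hef
    obtain ⟨h1, -, h3⟩ := hef
    have h4 : e.2.2 = f.2.2 := by
      rw [← erase_eq_of_notMem he.2.2.1, ← erase_eq_of_notMem hf.2.2.1, h3]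
    exact Prod.ext h1 (Prod.ext (by rw [he.2.1, hf.2.1]) h4)
  -- representatives
  have rA : ∀ w ∈ A, w ∈ F ∧ w.2.1 ≤ m ∧ cc m w = w := by
    intro w hw
    simp only [hA, mem_filter] at hw
    refine ⟨hw.1, hw.2, ?_⟩
    obtain ⟨-, -, h3⟩ := hV w hw.1
    have : m ∉ w.2.2 := by
      intro h; have := mem_Ioo.mp (h3 h); omega
    simp only [cc, min_eq_left hw.2, erase_eq_of_notMem this]
  have rB : ∀ w ∈ B, ∃ e ∈ F, cc m e = w ∧ e.2.1 = m + 1 ∧ e.1 < m ∧ vl e m = 1 := by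
    intro w hw
    simp only [hB, mem_image, hZp, mem_filter] at hw
    obtain ⟨e, ⟨he, h1, h2⟩, rfl⟩ := hw
    obtain ⟨-, -, h3⟩ := hV e he
    have h4 := mem_Ioo.mp (h3 h2)
    refine ⟨e, he, rfl, h1, h4.1, ?_⟩
    simp only [vl]
    rw [if_neg (by omega), if_pos h2]
  have rD : ∀ w ∈ D, ∃ e ∈ F, cc m e = w ∧ e.2.1 = m + 1 ∧ e.1 < m ∧ vl e m = -1 := by
    intro w hw
    simp only [hD, mem_image, hZm, mem_filter] at hw
    obtain ⟨e, ⟨he, h1, h2, h3⟩, rfl⟩ := hw
    have h4 := (hV e he).1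
    refine ⟨e, he, rfl, h1, by omega, ?_⟩
    simp only [vl]
    rw [if_neg (by omega), if_neg h2]
  have vcc : ∀ e ∈ F, e.1 < m → (cc m e).1 < (cc m e).2.1 ∧ (cc m e).2.1 ≤ m ∧
      (cc m e).2.2 ⊆ Ioo (cc m e).1 (cc m e).2.1 := by
    intro e he h
    obtain ⟨h1, h2, h3⟩ := hV e he
    refine ⟨lt_min h1 h, min_le_right _ _, ?_⟩
    intro u hu
    simp only [cc, mem_erase] at hu
    have := mem_Ioo.mp (h3 hu.2)
    simp only [cc, mem_Ioo]
    refine ⟨this.1, lt_min this.2 ?_⟩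
    omega
  have vA : Vd m A := by
    intro e he
    obtain ⟨h1, h2, h3⟩ := rA e he
    obtain ⟨h4, h5, h6⟩ := hV e h1
    exact ⟨h4, h2, h6⟩
  have vB : Vd m B := by
    intro w hw
    obtain ⟨e, he, rfl, -, h, -⟩ := rB w hw
    exact vcc e he h
  have vD : Vd m D := by
    intro w hw
    obtain ⟨e, he, rfl, -, h, -⟩ := rD w hw
    exact vcc e he h
  have bB : ∀ w ∈ B, w.2.1 = m := by
    intro w hw
    obtain ⟨e, he, rfl, h1, h, -⟩ := rB w hw
    simp only [cc, h1]; omega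
  have bD : ∀ w ∈ D, w.2.1 = m := by
    intro w hw
    obtain ⟨e, he, rfl, h1, h, -⟩ := rD w hw
    simp only [cc, h1]; omega
  have rT : ∀ w ∈ (A ∪ B) ∪ D, ∃ e ∈ F, cc m e = w := by
    intro w hw
    rcases mem_union.mp hw with hw | hw
    · rcases mem_union.mp hw with hw | hw
      · exact ⟨w, (rA w hw).1, (rA w hw).2.2⟩
      · obtain ⟨e, he, h, -⟩ := rB w hw; exact ⟨e, he, h⟩
    · obtain ⟨e, he, h, -⟩ := rD w hw; exact ⟨e, he, h⟩
  have agF : ∀ e ∈ F, Ag (cc m e) e m := fun e he => Ag_cc m e (hV e he).2.1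
  refine ⟨(A ∪ B) ∪ D, (A ∪ B) ∩ D, A ∩ B, ?_, ?_, ?_, ?_, ?_, ?_, ?_, ?_, ?_, ?_⟩
  · have h1 : F ⊆ insert ((m, m + 1, ∅) : Ed) ((A ∪ Zp) ∪ Zm) := by
      intro e he
      obtain ⟨h1, h2, h3⟩ := hV e he
      rw [mem_insert, mem_union, mem_union]
      by_cases h4 : e.2.1 ≤ m
      · right; left; left; exact mem_filter.mpr ⟨he, h4⟩
      · have h5 : e.2.1 = m + 1 := by omega
        by_cases h6 : m ∈ e.2.2
        · right; left; right; exact mem_filter.mpr ⟨he, h5, h6⟩
        · by_cases h7 : e.1 = m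
          · left
            have h8 : e.2.2 = ∅ := by
              rw [eq_empty_iff_forall_notMem]
              intro u hu
              have := mem_Ioo.mp (h3 hu); omega
            exact Prod.ext h7 (Prod.ext h5 h8)
          · right; right; exact mem_filter.mpr ⟨he, h5, h6, h7⟩
    have h2 := card_le_card h1
    have h3 := card_insert_le ((m, m + 1, ∅) : Ed) ((A ∪ Zp) ∪ Zm)
    have h4 := card_union_le (A ∪ Zp) Zm
    have h5 := card_union_le A Zp
    have h6 := card_union_add_card_inter A B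
    have h7 := card_union_add_card_inter (A ∪ B) D
    omega
  · intro w hw
    rcases mem_union.mp hw with hw | hw
    · rcases mem_union.mp hw with hw | hw
      · exact vA w hw
      · exact vB w hw
    · exact vD w hw
  · intro w hw w' hw' hne hp
    obtain ⟨e, he, h⟩ := rT w hw
    obtain ⟨e', he', h'⟩ := rT w' hw'
    have h1 : e ≠ e' := by
      intro h1; apply hne; rw [← h, ← h', h1]
    apply hF e he e' he' h1
    apply P_mono (Nat.le_succ m)
    subst h; subst h'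
    exact P_congr (agF e he) (agF e' he') hp
  · intro w hw; exact vD w (mem_inter.mp hw).2
  · intro w hw; exact bD w (mem_inter.mp hw).2
  · apply good_pair hF (-1)
    intro w hw
    obtain ⟨hw1, hw2⟩ := mem_inter.mp hw
    obtain ⟨e1, he1, h1, h2, h3, h4⟩ := rD w hw2
    have ag1 : Ag w e1 m := by rw [← h1]; exact agF e1 he1
    rcases mem_union.mp hw1 with h | h
    · refine ⟨e1, he1, w, (rA w h).1, ag1, Ag.refl _ _, ⟨h3.le, by omega⟩, ?_, h4.le, ?_⟩
      · have := (vA w h).1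
        have h5 := bD w hw2
        exact ⟨by omega, by omega⟩
      · simp only [vl]
        rw [if_pos (Or.inr (bD w hw2).symm)]; norm_num
    · obtain ⟨e2, he2, h5, h6, h7, h8⟩ := rB w h
      refine ⟨e1, he1, e2, he2, ag1, ?_, ⟨h3.le, by omega⟩, ⟨h7.le, by omega⟩, h4.le, ?_⟩
      · rw [← h5]; exact agF e2 he2
      · rw [h8]; norm_num
  · intro w hw; exact vB w (mem_inter.mp hw).2
  · intro w hw; exact bB w (mem_inter.mp hw).2
  · apply good_pair hF 0
    intro w hw
    obtain ⟨hw1, hw2⟩ := mem_inter.mp hw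
    obtain ⟨e2, he2, h5, h6, h7, h8⟩ := rB w hw2
    refine ⟨w, (rA w hw1).1, e2, he2, Ag.refl _ _, ?_, ?_, ⟨h7.le, by omega⟩, ?_, ?_⟩
    · rw [← h5]; exact agF e2 he2
    · have := (vA w hw1).1
      have h5 := bB w hw2
      exact ⟨by omega, by omega⟩
    · simp only [vl]
      rw [if_pos (Or.inr (bB w hw2).symm)]
    · rw [h8]; norm_num
  · intro hall
    have hA0 : A = ∅ := by
      rw [eq_empty_iff_forall_notMem]
      intro w hw
      have := rA w hw
      have h2 := hall w this.1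
      omega
    refine ⟨by rw [hA0]; simp, ?_⟩
    intro w hw
    rw [hA0, empty_union] at hw
    rcases mem_union.mp hw with hw | hw
    · exact bB w hw
    · exact bD w hw

def Lb : ℕ → ℕ → ℕ
  | 0, _ => 0
  | _ + 1, 0 => 1
  | n + 1, K + 1 => 1 + Lb n (K + 1) + Lb n K

def Hb : ℕ → ℕ → ℕ
  | 0, _ => 0
  | n + 1, K => 1 + Hb n K + 2 * Lb n K

lemma vd_zero {F : Finset Ed} (h : Vd 0 F) : F = ∅ := by
  rw [eq_empty_iff_forall_notMem]
  intro e he
  have := h e he
  omega

lemma exists_comp {n : ℕ} {e f : Ed} (he : e.1 < n) (he2 : e.2.1 = n) (he3 : e.2.2 ⊆ Ioo e.1 n)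
    (hf : f.1 < n) (hf2 : f.2.1 = n) (hf3 : f.2.2 ⊆ Ioo f.1 n) (hne : e ≠ f) :
    P 0 e f n ∨ P 0 f e n := by
  -- enough: a common position with different values
  have key : (∃ u < n, R e u ∧ R f u ∧ vl e u ≠ vl f u) → P 0 e f n ∨ P 0 f e n := by
    rintro ⟨u, hu, h1, h2, h3⟩
    rcases lt_or_gt_of_ne h3 with h | h
    · left; exact ⟨u, hu, h1, h2, h⟩
    · right; exact ⟨u, hu, h2, h1, h⟩
  apply key
  have nz : ∀ (g : Ed) (u : ℕ), g.2.1 = n → u ≠ g.1 → u < n → vl g u ≠ 0 := by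
    intro g u h1 h2 h3
    simp only [vl]
    rw [if_neg (by omega)]
    split_ifs <;> norm_num
  rcases lt_trichotomy e.1 f.1 with h | h | h
  · refine ⟨f.1, hf, ⟨h.le, by omega⟩, ⟨le_refl _, by omega⟩, ?_⟩
    have h1 : vl f f.1 = 0 := by simp [vl]
    rw [h1]
    exact nz e f.1 he2 (by omega) hf
  · -- same start: the sets differ
    have hS : e.2.2 ≠ f.2.2 := by
      intro h2
      exact hne (Prod.ext h (Prod.ext (by rw [he2, hf2]) h2))
    have : ∃ u, ¬ (u ∈ e.2.2 ↔ u ∈ f.2.2) := by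
      by_contra hcon
      push Not at hcon
      exact hS (Finset.ext hcon)
    obtain ⟨u, hu⟩ := this
    have hr : e.1 < u ∧ u < n := by
      by_cases h1 : u ∈ e.2.2
      · exact mem_Ioo.mp (he3 h1)
      · have h2 : u ∈ f.2.2 := by
          by_contra h2; exact hu ⟨fun h => absurd h h1, fun h => absurd h h2⟩
        have := mem_Ioo.mp (hf3 h2)
        omega
    refine ⟨u, hr.2, ⟨by omega, by omega⟩, ⟨by omega, by omega⟩, ?_⟩
    simp only [vl]
    rw [if_neg (show ¬ (u = e.1 ∨ u = e.2.1) by omega),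
      if_neg (show ¬ (u = f.1 ∨ u = f.2.1) by omega)]
    by_cases h1 : u ∈ e.2.2
    · have h2 : u ∉ f.2.2 := fun h => hu ⟨fun _ => h, fun _ => h1⟩
      rw [if_pos h1, if_neg h2]; norm_num
    · have h2 : u ∈ f.2.2 := by
        by_contra h2; exact hu ⟨fun h => absurd h h1, fun h => absurd h h2⟩
      rw [if_neg h1, if_pos h2]; norm_num
  · refine ⟨e.1, he, ⟨le_refl _, by omega⟩, ⟨h.le, by omega⟩, ?_⟩
    have h1 : vl e e.1 = 0 := by simp [vl]
    rw [h1]
    exact (nz f e.1 hf2 (by omega) he).symm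

theorem L_bound : ∀ (n K : ℕ) (F : Finset Ed), Vd n F → (∀ e ∈ F, e.2.1 = n) → Good K n F →
    F.card ≤ Lb n K := by
  intro n
  induction n with
  | zero =>
    intro K F hV _ _
    rw [vd_zero hV]; simp
  | succ m ih =>
    intro K F hV hall hG
    cases K with
    | zero =>
      simp only [Lb]
      rw [card_le_one]
      intro e he f hf
      by_contra hne
      have h1 := hV e he
      have h2 := hV f hf
      have h3 := hall e he
      have h4 := hall f hf
      rcases exists_comp (n := m + 1) (by omega) h3 (by rw [← h3]; exact h1.2.2) (by omega) h4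
        (by rw [← h4]; exact h2.2.2) hne with h | h
      · exact hG e he f hf hne h
      · exact hG f hf e he (Ne.symm hne) h
    | succ K =>
      obtain ⟨T, X, Y, h1, vT, gT, vX, bX, gX, vY, bY, gY, hall'⟩ := step hV hG
      obtain ⟨hY, bT⟩ := hall' hall
      have h2 := ih (K + 1) T vT bT gT
      have h3 := ih K X vX bX gX
      rw [hY, card_empty] at h1
      simp only [Lb]
      omega

theorem H_bound : ∀ (n K : ℕ) (F : Finset Ed), Vd n F → Good (K + 1) n F →
    F.card ≤ Hb n K := by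
  intro n
  induction n with
  | zero =>
    intro K F hV _
    rw [vd_zero hV]; simp
  | succ m ih =>
    intro K F hV hG
    obtain ⟨T, X, Y, h1, vT, gT, vX, bX, gX, vY, bY, gY, -⟩ := step hV hG
    have h2 := ih K T vT gT
    have h3 := L_bound m K X vX bX gX
    have h4 := L_bound m K Y vY bY gY
    simp only [Hb]
    omega

lemma Lb_eq : ∀ n K : ℕ, Lb (n + 1) K = 1 + 2 * ∑ l ∈ range K, n.choose (l + 1) := by
  intro n
  induction n with
  | zero =>
    intro K
    cases K with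
    | zero => simp [Lb]
    | succ K => simp [Lb]
  | succ n ih =>
    intro K
    cases K with
    | zero => simp [Lb]
    | succ K =>
      have e1 : Lb (n + 1 + 1) (K + 1) = 1 + Lb (n + 1) (K + 1) + Lb (n + 1) K := rfl
      rw [e1, ih, ih]
      have e2 : ∑ l ∈ range (K + 1), (n + 1).choose (l + 1) =
          ∑ l ∈ range (K + 1), n.choose l + ∑ l ∈ range (K + 1), n.choose (l + 1) := by
        rw [← sum_add_distrib]
        apply sum_congr rfl
        intro l _
        exact Nat.choose_succ_succ n l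
      have e3 : ∑ l ∈ range (K + 1), n.choose l = ∑ l ∈ range K, n.choose (l + 1) + 1 := by
        rw [sum_range_succ']; simp
      rw [e2, e3]; ring

lemma Hb_eq : ∀ n K : ℕ, Hb (n + 1) K = 3 * n + 1 + 4 * ∑ l ∈ range K, n.choose (l + 2) := by
  intro n
  induction n with
  | zero =>
    intro K
    simp [Hb, Lb]
  | succ n ih =>
    intro K
    have e1 : Hb (n + 1 + 1) K = 1 + Hb (n + 1) K + 2 * Lb (n + 1) K := rfl
    rw [e1, ih, Lb_eq]
    have e2 : ∑ l ∈ range K, (n + 1).choose (l + 2) =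
        ∑ l ∈ range K, n.choose (l + 1) + ∑ l ∈ range K, n.choose (l + 2) := by
      rw [← sum_add_distrib]
      apply sum_congr rfl
      intro l _
      exact Nat.choose_succ_succ n (l + 1)
    rw [e2]; ring

end HM
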